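import Mathlib
import Pool.Agent.Helper676.VT.Fin
import Pool.Agent.Helper87.VT.MWP

set_option autoImplicit false

namespace Pool.Agent.Results.MP_28d281_gt.VolumeThreshold

open Set Metric
open scoped ContDiff

/-- `Ψ`, restricted to the closed unit disc of `ℂ = ℝ²` (a compact disc with boundary the unit
circle), is a smooth embedding into `ℝ³` with constant mean curvature `H`: `Ψ` is smooth on an open
neighbourhood `V` of the closed disc, its differential is injective at every point of `V`, `Ψ` is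
injective on the closed disc, and there is a smooth unit normal field `n` along `Ψ` on `V` whose
shape operator `S`, defined by `dn = - dΨ ∘ S`, has trace `2 H` at every point of `V`. -/
def IsEmbeddedCmcDisc (Ψ : ℂ → EuclideanSpace ℝ (Fin 3)) (H : ℝ) : Prop :=
  ∃ V : Set ℂ, IsOpen V ∧ closedBall (0 : ℂ) 1 ⊆ V ∧ ContDiffOn ℝ ∞ Ψ V ∧
    (∀ z ∈ V, Function.Injective (fderiv ℝ Ψ z)) ∧
    InjOn Ψ (closedBall 0 1) ∧
    ∃ n : ℂ → EuclideanSpace ℝ (Fin 3), ContDiffOn ℝ ∞ n V ∧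
      ∀ z ∈ V, ‖n z‖ = 1 ∧ (∀ v : ℂ, inner ℝ (fderiv ℝ Ψ z v) (n z) = 0) ∧
        ∃ S : ℂ →L[ℝ] ℂ, (∀ v : ℂ, fderiv ℝ n z v = - fderiv ℝ Ψ z (S v)) ∧
          LinearMap.trace ℝ ℂ (S : ℂ →ₗ[ℝ] ℂ) = 2 * H

/-- The volume `V(Σ) = (1/3) ∫_Σ ⟨p, N⟩ dA` of the disc `Σ = Ψ(closed unit disc)`, with the
orientation chosen so that it is non-negative: since `N dA = ± Ψ_x × Ψ_y dx dy`, it is
`|(1/3) ∫ ⟨Ψ, Ψ_x × Ψ_y⟩ dx dy|`, and `⟨Ψ, Ψ_x × Ψ_y⟩` is the determinant with rows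
`Ψ, Ψ_x, Ψ_y`. -/
noncomputable def volume (Ψ : ℂ → EuclideanSpace ℝ (Fin 3)) : ℝ :=
  |(1 / 3) * ∫ z in closedBall (0 : ℂ) 1, Matrix.det (Matrix.of ![(Ψ z : Fin 3 → ℝ),
    (fderiv ℝ Ψ z 1 : Fin 3 → ℝ), (fderiv ℝ Ψ z Complex.I : Fin 3 → ℝ)])|

/-- **Theorem (disproof of Q1).** For every sufficiently small `δ > 0` let `C` be the ellipse
`(1 - δ) x₁² + (1 + δ) x₂² = 1` in the plane `P = {x₃ = 0}` (a closed convex curve which is not a
circle). For every `V_C` there is a compact embedded disc `Ψ` of constant mean curvature `H ≠ 0`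
with boundary exactly `C` and volume `> V_C` which lies in the closed half-space `{x₃ ≥ 0}`, i.e.
on one side of `P`; so assertion (3) of the problem fails for every `V_C > 0`. -/
theorem result : ∃ δ₀ : ℝ, 0 < δ₀ ∧ δ₀ ≤ 1 / 2 ∧ ∀ δ : ℝ, 0 < δ → δ < δ₀ → ∀ V_C : ℝ,
    ∃ (Ψ : ℂ → EuclideanSpace ℝ (Fin 3)) (H : ℝ), H ≠ 0 ∧ IsEmbeddedCmcDisc Ψ H ∧
      Ψ '' (sphere (0 : ℂ) 1) =
        {x | x 2 = 0 ∧ (1 - δ) * x 0 ^ 2 + (1 + δ) * x 1 ^ 2 = 1} ∧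
      (∀ z ∈ closedBall (0 : ℂ) 1, 0 ≤ Ψ z 2) ∧ V_C < volume Ψ :=
  Pool.Agent.Helper87.VT.P2.final_of_part01 Pool.Agent.Helper87.VT.part01

end Pool.Agent.Results.MP_28d281_gt.VolumeThreshold
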